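import Pool.Agent.J4H99.PK.Stm

/-!
Project PK, job LOW: lower bound for the packing measure (Vitali covering).
-/

set_option autoImplicit false

namespace Pool.Agent.J4H74.PK

open MeasureTheory Filter Topology Pool.Agent.Y41.EV Pool.Agent.Y995.HG Pool.Agent.J4H99.PK
open scoped ENNReal

/-- A finite packing is below the supremum. -/
theorem sum_le_sup (g : ℝ → ℝ≥0∞) (E : Set ℂ) (δ : ℝ) {ι : Type*} (s : Finset ι) (x : ι → ℂ)
    (r : ι → ℝ) (h1 : ∀ i ∈ s, x i ∈ E ∧ 0 < r i ∧ r i < δ)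
    (h2 : ∀ i ∈ s, ∀ j ∈ s, i ≠ j →
      Disjoint (Metric.closedBall (x i) (r i)) (Metric.closedBall (x j) (r j))) :
    ∑ i ∈ s, g (r i) ≤ ⨆ n : ℕ, ⨆ x : Fin n → ℂ, ⨆ r : Fin n → ℝ,
      ⨆ _ : (∀ i, x i ∈ E ∧ 0 < r i ∧ r i < δ) ∧ ∀ i j, i ≠ j →
        Disjoint (Metric.closedBall (x i) (r i)) (Metric.closedBall (x j) (r j)),
      ∑ i, g (r i) := by
  have e : ∑ i ∈ s, g (r i) = ∑ i : Fin s.card, g (r (s.equivFin.symm i : ι)) := by
    rw [← Finset.sum_coe_sort s (fun i => g (r i))]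
    exact (Equiv.sum_comp s.equivFin.symm (fun i : s => g (r (i : ι)))).symm
  rw [e]
  refine le_iSup_of_le s.card (le_iSup_of_le (fun i => x (s.equivFin.symm i : ι))
    (le_iSup_of_le (fun i => r (s.equivFin.symm i : ι)) (le_iSup_of_le ⟨?_, ?_⟩ le_rfl)))
  · intro i
    exact h1 _ (s.equivFin.symm i).2
  · intro i j hij
    refine h2 _ (s.equivFin.symm i).2 _ (s.equivFin.symm j).2 fun h => hij ?_
    exact s.equivFin.symm.injective (Subtype.ext h)

theorem low_core {f : C(unitInterval, ℂ)} {T C : ℝ} (hT : 0 < T) (hC : 0 < C) (h : LI f T C)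
    (S : Set unitInterval) (A : Set ℂ) :
    ENNReal.ofReal (T / C) * volume (S ∩ f ⁻¹' A) ≤ pre gps A := by
  unfold pre
  refine le_iInf fun δ => le_iInf fun hδ => ?_
  obtain ⟨G, hGd⟩ : ∃ G : Set unitInterval, G = {t | ∀ η : ℝ, 0 < η → ∃ r, 0 < r ∧ r < η ∧
      T * (volume {u : unitInterval | dist (f u) (f t) ≤ 5 * r}).toReal ≤ C * psi r} := ⟨_, rfl⟩
  have hG : volume Gᶜ = 0 := by
    rw [hGd]
    exact h
  obtain ⟨S', hS'⟩ : ∃ S' : Set unitInterval, S' = (S ∩ f ⁻¹' A) ∩ G := ⟨_, rfl⟩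
  have hvol : volume (S ∩ f ⁻¹' A) ≤ volume S' := by
    calc volume (S ∩ f ⁻¹' A) ≤ volume (S' ∪ Gᶜ) := by
          refine measure_mono fun t ht => ?_
          by_cases hg : t ∈ G
          · left; rw [hS']; exact ⟨ht, hg⟩
          · right; exact hg
      _ ≤ volume S' + volume Gᶜ := measure_union_le _ _
      _ = volume S' := by rw [hG, add_zero]
  have hch : ∀ t : unitInterval, ∃ r : ℝ, t ∈ G → 0 < r ∧ r < δ ∧
      T * (volume {u : unitInterval | dist (f u) (f t) ≤ 5 * r}).toReal ≤ C * psi r := by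
    intro t
    by_cases ht : t ∈ G
    · have ht' := ht
      rw [hGd] at ht'
      obtain ⟨r, hr⟩ := ht' δ hδ
      exact ⟨r, fun _ => hr⟩
    · exact ⟨0, fun h => absurd h ht⟩
  choose r hr using hch
  have hSG : ∀ t ∈ S', t ∈ G := fun t ht => by rw [hS'] at ht; exact ht.2
  obtain ⟨u, hu, hdisj, hcov⟩ :=
    Vitali.exists_disjoint_subfamily_covering_enlargement_closedBall S' (fun t => f t) r δ
      (fun t ht => (hr t (hSG t ht)).2.1.le) 5 (by norm_num)
  have hcount : u.Countable := by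
    refine hdisj.countable_of_nonempty_interior fun t ht => ?_
    have h0 := (hr t (hSG t (hu ht))).1
    rw [interior_closedBall _ h0.ne']
    exact ⟨f t, Metric.mem_ball_self h0⟩
  have hcovS : S' ⊆ ⋃ b ∈ u, {v : unitInterval | dist (f v) (f b) ≤ 5 * r b} := by
    intro t ht
    obtain ⟨b, hb, hb2⟩ := hcov t ht
    rw [Set.mem_iUnion₂]
    refine ⟨b, hb, ?_⟩
    exact hb2 (Metric.mem_closedBall_self (hr t (hSG t ht)).1.le)
  have h1 : volume S' ≤ ∑' b : u, ENNReal.ofReal (C / T * psi (r b)) := by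
    calc volume S' ≤ volume (⋃ b ∈ u, {v : unitInterval | dist (f v) (f b) ≤ 5 * r b}) :=
          measure_mono hcovS
      _ ≤ ∑' b : u, volume {v : unitInterval | dist (f v) (f b) ≤ 5 * r b} :=
          measure_biUnion_le volume hcount _
      _ ≤ ∑' b : u, ENNReal.ofReal (C / T * psi (r b)) := by
          refine ENNReal.tsum_le_tsum fun b => ?_
          have h2 := (hr b (hSG b (hu b.2))).2.2
          rw [← ENNReal.ofReal_toReal (measure_ne_top volume
            {v : unitInterval | dist (f v) (f b) ≤ 5 * r b})]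
          refine ENNReal.ofReal_le_ofReal ?_
          rw [div_mul_eq_mul_div, le_div_iff₀ hT, mul_comm]
          exact h2
  have h3 : ENNReal.ofReal (T / C) * volume (S ∩ f ⁻¹' A) ≤ ∑' b : u, gps (r b) := by
    calc ENNReal.ofReal (T / C) * volume (S ∩ f ⁻¹' A)
        ≤ ENNReal.ofReal (T / C) * ∑' b : u, ENNReal.ofReal (C / T * psi (r b)) :=
          mul_le_mul_right (hvol.trans h1) _
      _ = ∑' b : u, gps (r b) := by
          rw [← ENNReal.tsum_mul_left]
          refine tsum_congr fun b => ?_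
          rw [← ENNReal.ofReal_mul (by positivity)]
          unfold gps
          congr 1
          field_simp
  refine h3.trans ?_
  rw [ENNReal.tsum_eq_iSup_sum]
  refine iSup_le fun s => ?_
  refine sum_le_sup gps A δ s (fun b => f b) (fun b => r b) ?_ ?_
  · intro b _
    have h4 := hr b (hSG b (hu b.2))
    refine ⟨?_, h4.1, h4.2.1⟩
    have h5 := hu b.2
    rw [hS'] at h5
    exact h5.1.2
  · intro b _ b' _ hbb'
    exact hdisj b.2 b'.2 fun h => hbb' (Subtype.ext h)

theorem t_LOW : S_LOW := by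
  intro f T C hT hC h S
  unfold pack
  refine le_iInf fun A => le_iInf fun hA => ?_
  have h1 : S ⊆ ⋃ n, S ∩ f ⁻¹' (A n) := by
    intro t ht
    obtain ⟨n, hn⟩ := Set.mem_iUnion.1 (hA (Set.mem_image_of_mem f ht))
    exact Set.mem_iUnion.2 ⟨n, ht, hn⟩
  calc ENNReal.ofReal (T / C) * volume S
      ≤ ENNReal.ofReal (T / C) * ∑' n, volume (S ∩ f ⁻¹' (A n)) :=
        mul_le_mul_right ((measure_mono h1).trans (measure_iUnion_le _)) _
    _ = ∑' n, ENNReal.ofReal (T / C) * volume (S ∩ f ⁻¹' (A n)) := ENNReal.tsum_mul_left.symm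
    _ ≤ ∑' n, pre gps (A n) := ENNReal.tsum_le_tsum fun n => low_core hT hC h S (A n)

end Pool.Agent.J4H74.PK
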