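import Pool.Agent.J4H99.PK.Stm

/-!
Project PK, job OPEN: the set of the curves with a long piece without `N` good pairs is open.
-/

set_option autoImplicit false

namespace Pool.Agent.J4H74.PK

open MeasureTheory Filter Topology Pool.Agent.Y41.EV Pool.Agent.Y995.HG Pool.Agent.J4H99.PK
open scoped ENNReal

/-- curves with a factor of time -/
abbrev XX : Type := C(unitInterval, ℂ) × ℝ

/-- The type of families of pairs. -/
abbrev FP (N : ℕ) : Type := (Fin N → unitInterval) × (Fin N → unitInterval)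

theorem vol_closed (w τ : ℝ) : IsClosed {x : XX × unitInterval | 0 ≤ x.1.2 ∧
    x.1.2 * (volume {r : unitInterval | dist (x.1.1 r) (x.1.1 x.2) < w / 4}).toReal ≤ τ} := by
  apply IsSeqClosed.isClosed
  intro q p hq hlim
  simp only [Set.mem_ofPred_eq] at hq ⊢
  have ht2 : Tendsto (fun n => (q n).1.2) atTop (𝓝 p.1.2) :=
    ((continuous_snd.comp continuous_fst).tendsto p).comp hlim
  have hp0 : 0 ≤ p.1.2 := ge_of_tendsto' ht2 fun n => (hq n).1
  refine ⟨hp0, ?_⟩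
  obtain ⟨B, hB⟩ : ∃ B : ℕ → Set unitInterval, B = fun N => {r | ∀ n, N ≤ n →
      dist ((q n).1.1 r) ((q n).1.1 (q n).2) < w / 4} := ⟨_, rfl⟩
  have hBm : Monotone B := by
    intro N N' hNN t ht
    rw [hB] at ht ⊢
    exact fun n hn => ht n (hNN.trans hn)
  have hsub : {r : unitInterval | dist (p.1.1 r) (p.1.1 p.2) < w / 4} ⊆ ⋃ N, B N := by
    intro r hr
    have c2 : Continuous fun x : XX × unitInterval => dist (x.1.1 r) (x.1.1 x.2) := by fun_prop
    have e2 : ∀ᶠ n in atTop, dist ((q n).1.1 r) ((q n).1.1 (q n).2) < w / 4 :=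
      ((c2.tendsto p).comp hlim).eventually (gt_mem_nhds hr)
    obtain ⟨N, hN⟩ := eventually_atTop.1 e2
    rw [Set.mem_iUnion]
    refine ⟨N, ?_⟩
    rw [hB]
    exact fun n hn => hN n hn
  have ht1 : Tendsto (fun N => (volume (B N)).toReal) atTop (𝓝 (volume (⋃ N, B N)).toReal) :=
    (ENNReal.tendsto_toReal (measure_ne_top _ _)).comp (tendsto_measure_iUnion_atTop hBm)
  have ht3 := ht2.mul ht1
  have hle : ∀ N, (q N).1.2 * (volume (B N)).toReal ≤ τ := by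
    intro N
    refine le_trans ?_ (hq N).2
    refine mul_le_mul_of_nonneg_left ?_ (hq N).1
    refine ENNReal.toReal_mono (measure_ne_top _ _) (measure_mono ?_)
    intro t ht
    rw [hB] at ht
    exact ht N le_rfl
  have h4 := le_of_tendsto' ht3 hle
  have h5 : (volume {r : unitInterval | dist (p.1.1 r) (p.1.1 p.2) < w / 4}).toReal ≤
      (volume (⋃ N, B N)).toReal :=
    ENNReal.toReal_mono (measure_ne_top _ _) (measure_mono hsub)
  exact (mul_le_mul_of_nonneg_left h5 hp0).trans h4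

theorem gpairs_closed (w τ : ℝ) (N : ℕ) (s t : unitInterval) :
    IsClosed {x : XX × FP N | 0 ≤ x.1.2 ∧
      (∀ a, s ≤ x.2.1 a ∧ x.2.1 a ≤ x.2.2 a ∧ x.2.2 a ≤ t) ∧
      (∀ a b, a ≠ b → x.2.2 a ≤ x.2.1 b ∨ x.2.2 b ≤ x.2.1 a) ∧
      ∀ a, w ≤ dist (x.1.1 (x.2.1 a)) (x.1.1 (x.2.2 a)) ∧
        x.1.2 * ((x.2.2 a : ℝ) - x.2.1 a) ≤ τ ∧
        x.1.2 * (volume {r : unitInterval | dist (x.1.1 r) (x.1.1 (x.2.1 a)) < w / 4}).toReal
          ≤ τ} := by
  have cu : ∀ a : Fin N, Continuous (fun x : XX × FP N => x.2.1 a) := fun a => by fun_prop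
  have cv : ∀ a : Fin N, Continuous (fun x : XX × FP N => x.2.2 a) := fun a => by fun_prop
  have cu' : ∀ a : Fin N, Continuous (fun x : XX × FP N => (x.2.1 a : ℝ)) :=
    fun a => by fun_prop
  have cv' : ∀ a : Fin N, Continuous (fun x : XX × FP N => (x.2.2 a : ℝ)) :=
    fun a => by fun_prop
  have cp : ∀ a : Fin N, Continuous (fun x : XX × FP N => x.1.1 (x.2.1 a)) :=
    fun a => by fun_prop
  have cq : ∀ a : Fin N, Continuous (fun x : XX × FP N => x.1.1 (x.2.2 a)) :=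
    fun a => by fun_prop
  have cT : Continuous (fun x : XX × FP N => x.1.2) := by fun_prop
  have cpr : ∀ a : Fin N, Continuous (fun x : XX × FP N => (x.1, x.2.1 a)) :=
    fun a => by fun_prop
  have e : {x : XX × FP N | 0 ≤ x.1.2 ∧
      (∀ a, s ≤ x.2.1 a ∧ x.2.1 a ≤ x.2.2 a ∧ x.2.2 a ≤ t) ∧
      (∀ a b, a ≠ b → x.2.2 a ≤ x.2.1 b ∨ x.2.2 b ≤ x.2.1 a) ∧
      ∀ a, w ≤ dist (x.1.1 (x.2.1 a)) (x.1.1 (x.2.2 a)) ∧
        x.1.2 * ((x.2.2 a : ℝ) - x.2.1 a) ≤ τ ∧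
        x.1.2 * (volume {r : unitInterval | dist (x.1.1 r) (x.1.1 (x.2.1 a)) < w / 4}).toReal
          ≤ τ} =
      {x : XX × FP N | 0 ≤ x.1.2} ∩
      ((⋂ a : Fin N, ({x : XX × FP N | s ≤ x.2.1 a} ∩
        ({x : XX × FP N | x.2.1 a ≤ x.2.2 a} ∩ {x : XX × FP N | x.2.2 a ≤ t}))) ∩
      ((⋂ a : Fin N, ⋂ b : Fin N, ⋂ _ : a ≠ b,
        ({x : XX × FP N | x.2.2 a ≤ x.2.1 b} ∪ {x : XX × FP N | x.2.2 b ≤ x.2.1 a})) ∩
      (⋂ a : Fin N, ({x : XX × FP N | w ≤ dist (x.1.1 (x.2.1 a)) (x.1.1 (x.2.2 a))} ∩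
        ({x : XX × FP N | x.1.2 * ((x.2.2 a : ℝ) - x.2.1 a) ≤ τ} ∩
        (fun x : XX × FP N => (x.1, x.2.1 a)) ⁻¹' {x : XX × unitInterval | 0 ≤ x.1.2 ∧
          x.1.2 * (volume {r : unitInterval | dist (x.1.1 r) (x.1.1 x.2) < w / 4}).toReal
            ≤ τ}))))) := by
    ext x
    simp only [Set.mem_iInter, Set.mem_ofPred_eq, Set.mem_inter_iff, Set.mem_union,
      Set.mem_preimage]
    constructor
    · rintro ⟨h0, h1, h2, h3⟩
      exact ⟨h0, h1, h2, fun a => ⟨(h3 a).1, (h3 a).2.1, h0, (h3 a).2.2⟩⟩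
    · rintro ⟨h0, h1, h2, h3⟩
      exact ⟨h0, h1, h2, fun a => ⟨(h3 a).1, (h3 a).2.1, (h3 a).2.2.2⟩⟩
  rw [e]
  refine (isClosed_le continuous_const cT).inter (IsClosed.inter (isClosed_iInter fun a => ?_)
    (IsClosed.inter (isClosed_iInter fun a => isClosed_iInter fun b => isClosed_iInter fun _ => ?_)
    (isClosed_iInter fun a => ?_)))
  · exact (isClosed_le continuous_const (cu a)).inter
      ((isClosed_le (cu a) (cv a)).inter (isClosed_le (cv a) continuous_const))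
  · exact (isClosed_le (cv a) (cu b)).union (isClosed_le (cv b) (cu a))
  · exact (isClosed_le continuous_const ((cp a).dist (cq a))).inter
      ((isClosed_le (cT.mul ((cv' a).sub (cu' a))) continuous_const).inter
        ((vol_closed w τ).preimage (cpr a)))

/-- OPEN -/
theorem t_OPEN : S_OPEN := by
  intro d ρ w τ h N hd hh
  rcases Nat.eq_zero_or_pos N with hN | hN
  · subst hN
    have e : {p : C(unitInterval, ℂ) × ℝ | ∃ s t : unitInterval,
        (∀ u : unitInterval, s ≤ u → u ≤ t → ρ < d (p.1 u)) ∧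
        h < p.2 * ((t : ℝ) - s) ∧ ¬ GPairs p.1 p.2 w τ 0 s t} = ∅ := by
      ext p
      simp only [Set.mem_ofPred_eq, Set.mem_empty_iff_false, iff_false]
      rintro ⟨s, t, _, _, h3⟩
      exact h3 ⟨fun a => a.elim0, fun a => a.elim0, fun a => a.elim0, fun a => a.elim0,
        fun a => a.elim0⟩
    rw [e]
    exact isOpen_empty
  have e : {p : C(unitInterval, ℂ) × ℝ | ∃ s t : unitInterval,
      (∀ u : unitInterval, s ≤ u → u ≤ t → ρ < d (p.1 u)) ∧
      h < p.2 * ((t : ℝ) - s) ∧ ¬ GPairs p.1 p.2 w τ N s t} =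
      ⋃ s : unitInterval, ⋃ t : unitInterval,
      (((Prod.fst '' {x : XX × unitInterval | (s ≤ x.2 ∧ x.2 ≤ t) ∧ d (x.1.1 x.2) ≤ ρ})ᶜ ∩
        {p : XX | h < p.2 * ((t : ℝ) - s)}) ∩
        (Prod.fst '' {x : XX × FP N | 0 ≤ x.1.2 ∧
          (∀ a, s ≤ x.2.1 a ∧ x.2.1 a ≤ x.2.2 a ∧ x.2.2 a ≤ t) ∧
          (∀ a b, a ≠ b → x.2.2 a ≤ x.2.1 b ∨ x.2.2 b ≤ x.2.1 a) ∧
          ∀ a, w ≤ dist (x.1.1 (x.2.1 a)) (x.1.1 (x.2.2 a)) ∧
            x.1.2 * ((x.2.2 a : ℝ) - x.2.1 a) ≤ τ ∧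
            x.1.2 * (volume {r : unitInterval | dist (x.1.1 r) (x.1.1 (x.2.1 a)) < w / 4}).toReal
              ≤ τ})ᶜ) := by
    ext p
    simp only [Set.mem_ofPred_eq, Set.mem_iUnion, Set.mem_inter_iff, Set.mem_compl_iff,
      Set.mem_image]
    constructor
    · rintro ⟨s, t, h1, h2, h3⟩
      refine ⟨s, t, ⟨?_, h2⟩, ?_⟩
      · rintro ⟨⟨p', u⟩, ⟨⟨a1, a2⟩, a3⟩, rfl⟩
        exact absurd a3 (not_le.2 (h1 u a1 a2))
      · rintro ⟨⟨p', z⟩, ⟨a0, a1, a2, a3⟩, rfl⟩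
        exact h3 ⟨z.1, z.2, a1, a2, a3⟩
    · rintro ⟨s, t, ⟨h1, h2⟩, h3⟩
      refine ⟨s, t, ?_, h2, ?_⟩
      · intro u a1 a2
        by_contra hcon
        push Not at hcon
        exact h1 ⟨(p, u), ⟨⟨a1, a2⟩, hcon⟩, rfl⟩
      · rintro ⟨u, v, z1, z2, z3⟩
        have hst : (s : ℝ) ≤ t := by
          have hz := z1 ⟨0, hN⟩
          exact_mod_cast hz.1.trans (hz.2.1.trans hz.2.2)
        have hT : 0 ≤ p.2 := by
          by_contra hneg
          push Not at hneg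
          nlinarith
        exact h3 ⟨(p, (u, v)), ⟨hT, z1, z2, z3⟩, rfl⟩
  rw [e]
  refine isOpen_iUnion fun s => isOpen_iUnion fun t => ?_
  refine IsOpen.inter (IsOpen.inter ?_ ?_) ?_
  · rw [isOpen_compl_iff]
    refine isClosedMap_fst_of_compactSpace _ ?_
    have c0 : Continuous (fun x : XX × unitInterval => x.1.1 x.2) := by fun_prop
    have c1 : Continuous (fun x : XX × unitInterval => x.2) := by fun_prop
    exact ((isClosed_le continuous_const c1).inter (isClosed_le c1 continuous_const)).inter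
      (isClosed_le (hd.comp c0) continuous_const)
  · have c0 : Continuous (fun p : XX => p.2 * ((t : ℝ) - s)) := by fun_prop
    exact isOpen_lt continuous_const c0
  · rw [isOpen_compl_iff]
    exact isClosedMap_fst_of_compactSpace _ (gpairs_closed w τ N s t)

end Pool.Agent.J4H74.PK
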