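import Pool.Agent.J4H99.PK.Stm
import Pool.Agent.R965.EV.LilLow

/-!
Project PK, jobs GEX, P74, LD.
-/

set_option autoImplicit false

namespace Pool.Agent.J4H74.PK

open MeasureTheory Filter Topology Pool.Agent.Y41.EV Pool.Agent.Y995.HG Pool.Agent.J4H99.PK
open Pool.Agent.R965.EV
open scoped ENNReal

/-- Comparison of packing premeasures: only small radii matter. -/
theorem pre_le {g g' : ℝ → ℝ≥0∞} {M : ℝ≥0∞} {δ0 : ℝ} (hδ0 : 0 < δ0)
    (h : ∀ r, 0 < r → r < δ0 → M * g r ≤ g' r) (E : Set ℂ) : M * pre g E ≤ pre g' E := by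
  have key : ∀ δ : ℝ, 0 < δ → M * pre g E ≤ ⨆ n : ℕ, ⨆ x : Fin n → ℂ, ⨆ r : Fin n → ℝ,
      ⨆ _ : (∀ i, x i ∈ E ∧ 0 < r i ∧ r i < δ) ∧ ∀ i j, i ≠ j →
        Disjoint (Metric.closedBall (x i) (r i)) (Metric.closedBall (x j) (r j)),
      ∑ i, g' (r i) := by
    intro δ hδ
    have h1 : pre g E ≤ ⨆ n : ℕ, ⨆ x : Fin n → ℂ, ⨆ r : Fin n → ℝ,
        ⨆ _ : (∀ i, x i ∈ E ∧ 0 < r i ∧ r i < min δ δ0) ∧ ∀ i j, i ≠ j →
          Disjoint (Metric.closedBall (x i) (r i)) (Metric.closedBall (x j) (r j)),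
        ∑ i, g (r i) := iInf₂_le (min δ δ0) (lt_min hδ hδ0)
    refine (mul_le_mul_right h1 M).trans ?_
    simp only [ENNReal.mul_iSup]
    refine iSup_le fun n => iSup_le fun x => iSup_le fun r => iSup_le fun hxr => ?_
    refine le_iSup_of_le n (le_iSup_of_le x (le_iSup_of_le r (le_iSup_of_le
      ⟨fun i => ⟨(hxr.1 i).1, (hxr.1 i).2.1, (hxr.1 i).2.2.trans_le (min_le_left _ _)⟩, hxr.2⟩ ?_)))
    rw [Finset.mul_sum]
    exact Finset.sum_le_sum fun i _ => h (r i) (hxr.1 i).2.1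
      ((hxr.1 i).2.2.trans_le (min_le_right _ _))
  exact le_iInf fun δ => le_iInf fun hδ => key δ hδ

theorem pack_le {g g' : ℝ → ℝ≥0∞} {M : ℝ≥0∞} {δ0 : ℝ} (hδ0 : 0 < δ0)
    (h : ∀ r, 0 < r → r < δ0 → M * g r ≤ g' r) (E : Set ℂ) : M * pack g E ≤ pack g' E := by
  unfold pack
  refine le_iInf fun A => le_iInf fun hA => ?_
  calc M * (⨅ A : ℕ → Set ℂ, ⨅ _ : E ⊆ ⋃ n, A n, ∑' n, pre g (A n))
      ≤ M * ∑' n, pre g (A n) := mul_le_mul_right (iInf₂_le A hA) M
    _ = ∑' n, M * pre g (A n) := ENNReal.tsum_mul_left.symm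
    _ ≤ ∑' n, pre g' (A n) := ENNReal.tsum_le_tsum fun n => pre_le hδ0 h (A n)

/-- `log log (1/r)` is large for small `r`. -/
theorem loglog_ge {X r : ℝ} (h0 : 0 < r) (h1 : r < Real.exp (-Real.exp X)) :
    X ≤ Real.log (Real.log (1 / r)) := by
  have h2 : Real.exp X ≤ Real.log (1 / r) := by
    rw [one_div, Real.log_inv, le_neg]
    have := Real.log_le_log h0 h1.le
    rwa [Real.log_exp] at this
  rw [Real.le_log_iff_exp_le (lt_of_lt_of_le (Real.exp_pos _) h2)]
  exact h2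

theorem gex_eq_gps {r : ℝ} (h0 : 0 < r) (h1 : r < Real.exp (-Real.exp 1)) : gex r = gps r := by
  unfold gex gps psi ll
  rw [max_eq_right (loglog_ge h0 h1)]

theorem t_GEX : S_GEX := by
  intro E
  refine le_antisymm ?_ ?_
  · have := pack_le (g := gex) (g' := gps) (M := 1) (Real.exp_pos (-Real.exp 1))
      (fun r h0 h1 => by rw [one_mul, gex_eq_gps h0 h1]) E
    rwa [one_mul] at this
  · have := pack_le (g := gps) (g' := gex) (M := 1) (Real.exp_pos (-Real.exp 1))
      (fun r h0 h1 => by rw [one_mul, gex_eq_gps h0 h1]) E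
    rwa [one_mul] at this

theorem g74_ge (M : ℕ) {r : ℝ} (h0 : 0 < r)
    (h1 : r < Real.exp (-Real.exp ((M : ℝ) ^ (4/3 : ℝ)))) : (M : ℝ≥0∞) * gps r ≤ g74 r := by
  have hM : (0:ℝ) ≤ M := Nat.cast_nonneg M
  have h2 := loglog_ge h0 h1
  have h3 : (M : ℝ) ^ (4/3 : ℝ) ≤ ll r := h2.trans (le_max_right _ _)
  have h4 : (M : ℝ) ≤ ll r ^ (3/4 : ℝ) := by
    have := Real.rpow_le_rpow (by positivity) h3 (show (0:ℝ) ≤ 3/4 by norm_num)
    rw [← Real.rpow_mul hM] at this
    norm_num at this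
    norm_num
    exact this
  have hl := ll_pos r
  have h5 : (M : ℝ) * psi r ≤ r ^ (7/4 : ℝ) := by
    unfold psi
    rw [mul_div_assoc', div_le_iff₀ (by positivity), mul_comm]
    exact mul_le_mul_of_nonneg_left h4 (by positivity)
  unfold gps g74
  rw [← ENNReal.ofReal_natCast, ← ENNReal.ofReal_mul hM]
  exact ENNReal.ofReal_le_ofReal h5

theorem t_P74 : Pool.Agent.J4H99.PK.S_P74 := by
  intro f c hc h S hS
  by_contra hne
  have h1 : ENNReal.ofReal c * volume S ≠ 0 :=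
    mul_ne_zero (by simpa using hc) hS
  obtain ⟨n, hn⟩ := ENNReal.exists_nat_mul_gt h1 hne
  have h2 : (n : ℝ≥0∞) * pack gps (f '' S) ≤ pack g74 (f '' S) :=
    pack_le (Real.exp_pos _) (fun r h0 h1 => g74_ge n h0 h1) _
  exact absurd (hn.trans_le ((mul_le_mul_right (h S) _).trans h2)) (lt_irrefl _)

/-- `phi` at a small multiple of `psi` -/
theorem phi_psi {c r : ℝ} (hc0 : 0 < c) (hc1 : c ≤ 1) (h0 : 0 < r) (h1 : r ≤ Real.exp (-1))
    (h2 : r ≤ c ^ 2) : phi (c * psi r) ≤ 3 * c ^ (4/7 : ℝ) * r := by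
  have hl := ll_pos r
  have hL1 : 1 ≤ Real.log (1 / r) := by
    rw [one_div, Real.log_inv]
    have := Real.log_le_log h0 h1
    rw [Real.log_exp] at this
    linarith
  have hr1 : r ≤ 1 := h1.trans (Real.exp_le_one_iff.2 (by norm_num))
  have hpsi0 : 0 < psi r := by unfold psi; positivity
  have hpsi : psi r ≤ r := by
    refine (psi_le h0.le).trans ?_
    have := Real.rpow_le_rpow_of_exponent_ge h0 hr1 (show (1:ℝ) ≤ 7/4 by norm_num)
    rwa [Real.rpow_one] at this
  obtain ⟨y, hy⟩ : ∃ y, y = c * psi r := ⟨_, rfl⟩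
  have hy0 : 0 < y := by rw [hy]; positivity
  have hll_le : ll r ≤ Real.log (1 / r) := by
    unfold ll
    refine max_le hL1 ?_
    have := Real.log_le_sub_one_of_pos (show 0 < Real.log (1 / r) by linarith)
    linarith
  have hlog : Real.log (1 / y) = Real.log (1 / c) + (7/4) * Real.log (1 / r)
      + (3/4) * Real.log (ll r) := by
    have e1 : Real.log (psi r) = (7/4) * Real.log r - (3/4) * Real.log (ll r) := by
      unfold psi
      rw [Real.log_div (by positivity) (by positivity), Real.log_rpow h0, Real.log_rpow hl]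
    rw [one_div, one_div, one_div, Real.log_inv, Real.log_inv, Real.log_inv, hy,
      Real.log_mul hc0.ne' hpsi0.ne', e1]
    ring
  have hc2 : 2 * Real.log (1 / c) ≤ Real.log (1 / r) := by
    rw [one_div, one_div, Real.log_inv, Real.log_inv]
    have := Real.log_le_log h0 h2
    rw [Real.log_pow] at this
    push_cast at this
    linarith
  have hlogll : Real.log (ll r) ≤ Real.log (1 / r) - 1 := by
    have := Real.log_le_sub_one_of_pos hl
    linarith
  have hlog3 : Real.log (1 / y) ≤ 3 * Real.log (1 / r) := by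
    rw [hlog]; linarith
  have hlogpos : 0 < Real.log (1 / y) := by
    have h3 : 0 ≤ Real.log (1 / c) := Real.log_nonneg (by rw [le_div_iff₀ hc0]; linarith)
    have h4 : 0 ≤ Real.log (ll r) := Real.log_nonneg (ll_ge r)
    rw [hlog]; linarith
  have hlly : ll y ≤ 3 * ll r := by
    have h5 : Real.log (Real.log (1 / y)) ≤ 2 + ll r := by
      have h6 := Real.log_le_log hlogpos hlog3
      rw [Real.log_mul (by norm_num) (by linarith)] at h6
      have h7 : Real.log 3 ≤ 2 := by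
        have := Real.log_le_sub_one_of_pos (show (0:ℝ) < 3 by norm_num)
        linarith
      have h8 : Real.log (Real.log (1 / r)) ≤ ll r := le_max_right _ _
      linarith
    have h9 := ll_ge r
    have h10 : ll y = max 1 (Real.log (Real.log (1 / y))) := rfl
    rw [h10]
    exact max_le (by linarith) (by linarith)
  have hpow : ll y ^ (3/7 : ℝ) ≤ 3 * ll r ^ (3/7 : ℝ) := by
    calc ll y ^ (3/7 : ℝ) ≤ (3 * ll r) ^ (3/7 : ℝ) :=
          Real.rpow_le_rpow (ll_pos y).le hlly (by norm_num)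
      _ = 3 ^ (3/7 : ℝ) * ll r ^ (3/7 : ℝ) := Real.mul_rpow (by norm_num) hl.le
      _ ≤ 3 * ll r ^ (3/7 : ℝ) := by
          refine mul_le_mul_of_nonneg_right ?_ (by positivity)
          have := Real.rpow_le_rpow_of_exponent_le (show (1:ℝ) ≤ 3 by norm_num)
            (show (3/7 : ℝ) ≤ 1 by norm_num)
          rwa [Real.rpow_one] at this
  have hypow : y ^ (4/7 : ℝ) = c ^ (4/7 : ℝ) * (r / ll r ^ (3/7 : ℝ)) := by
    rw [hy, Real.mul_rpow hc0.le hpsi0.le]
    congr 1
    unfold psi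
    rw [Real.div_rpow (by positivity) (by positivity), ← Real.rpow_mul h0.le,
      ← Real.rpow_mul hl.le]
    norm_num
  rw [← hy]
  unfold phi
  calc y ^ (4/7 : ℝ) * ll y ^ (3/7 : ℝ)
      ≤ y ^ (4/7 : ℝ) * (3 * ll r ^ (3/7 : ℝ)) := mul_le_mul_of_nonneg_left hpow (by positivity)
    _ = 3 * c ^ (4/7 : ℝ) * r := by
        rw [hypow]
        have : 0 < ll r ^ (3/7 : ℝ) := by positivity
        field_simp

/-- an interval on one side of `t` -/
theorem vol_side (t : unitInterval) {h : ℝ} (h0 : 0 ≤ h) (h1 : h ≤ 1 / 2) :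
    h ≤ (volume {u : unitInterval | |(u : ℝ) - t| ≤ h}).toReal := by
  have key : ∀ a b : unitInterval, (b : ℝ) - a = h → t = a ∨ t = b → a ≤ b →
      h ≤ (volume {u : unitInterval | |(u : ℝ) - t| ≤ h}).toReal := by
    intro a b hab ht hle
    have h2 : Set.Icc a b ⊆ {u : unitInterval | |(u : ℝ) - t| ≤ h} := by
      intro u hu
      have u1 : (a : ℝ) ≤ u := hu.1
      have u2 : (u : ℝ) ≤ b := hu.2
      show |(u : ℝ) - t| ≤ h
      rw [abs_le]
      rcases ht with ht | ht <;> subst ht <;> constructor <;> linarith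
    have h3 := measure_mono (μ := volume) h2
    rw [unitInterval.volume_Icc, hab] at h3
    have h4 := ENNReal.toReal_mono (measure_ne_top _ _) h3
    rwa [ENNReal.toReal_ofReal h0] at h4
  have t0 := t.2.1
  have t1 := t.2.2
  rcases le_total (t : ℝ) (1 / 2) with ht | ht
  · exact key t ⟨(t : ℝ) + h, by linarith, by linarith⟩ (by simp) (Or.inl rfl)
      (Subtype.mk_le_mk.2 (by linarith))
  · exact key ⟨(t : ℝ) - h, by linarith, by linarith⟩ t (by simp) (Or.inr rfl)
      (Subtype.mk_le_mk.2 (by linarith))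

theorem t_LD : S_LD := by
  intro C hC
  obtain ⟨c, hc⟩ : ∃ c : ℝ, c = (1 / (3 * C + 1)) ^ (7/4 : ℝ) := ⟨_, rfl⟩
  have hq0 : 0 < 1 / (3 * C + 1) := by positivity
  have hq1 : 1 / (3 * C + 1) ≤ 1 := by rw [div_le_one (by positivity)]; linarith
  have hc0 : 0 < c := by rw [hc]; positivity
  have hc1 : c ≤ 1 := by rw [hc]; exact Real.rpow_le_one hq0.le hq1 (by norm_num)
  have hc47 : c ^ (4/7 : ℝ) = 1 / (3 * C + 1) := by
    rw [hc, ← Real.rpow_mul hq0.le]
    norm_num
  refine ⟨c, hc0, fun f T hT h => ?_⟩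
  filter_upwards [h] with t ht
  obtain ⟨ε, hε, hball⟩ := Metric.eventually_nhds_iff.1 ht
  -- small radii
  obtain ⟨ρ, hρ⟩ : ∃ ρ : ℝ, ρ = min (min (Real.exp (-1)) (c ^ 2)) (min (T * (1 / 2)) (T * (ε / 2))) :=
    ⟨_, rfl⟩
  have hρ0 : 0 < ρ := by
    rw [hρ]
    refine lt_min (lt_min (Real.exp_pos _) (by positivity)) (lt_min (by positivity) (by positivity))
  have hmem : Set.Ioo (0:ℝ) ρ ∈ 𝓝[>] (0:ℝ) := Ioo_mem_nhdsGT hρ0
  filter_upwards [hmem] with r hr
  have hr0 := hr.1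
  have hr1 : r ≤ Real.exp (-1) := hr.2.le.trans (by
    rw [hρ]; exact (min_le_left _ _).trans (min_le_left _ _))
  have hr2 : r ≤ c ^ 2 := hr.2.le.trans (by
    rw [hρ]; exact (min_le_left _ _).trans (min_le_right _ _))
  have hr3 : r ≤ T * (1 / 2) := hr.2.le.trans (by
    rw [hρ]; exact (min_le_right _ _).trans (min_le_left _ _))
  have hr4 : r < T * ε := hr.2.trans_le (by
    rw [hρ]; refine ((min_le_right _ _).trans (min_le_right _ _)).trans ?_
    exact mul_le_mul_of_nonneg_left (by linarith) hT.le)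
  have hr5 : r ≤ 1 := hr1.trans (Real.exp_le_one_iff.2 (by norm_num))
  have hpsi0 : 0 ≤ psi r := psi_nonneg hr0.le
  have hpsi : psi r ≤ r := by
    refine (psi_le hr0.le).trans ?_
    have := Real.rpow_le_rpow_of_exponent_ge hr0 hr5 (show (1:ℝ) ≤ 7/4 by norm_num)
    rwa [Real.rpow_one] at this
  have hy : c * psi r ≤ r := by nlinarith
  obtain ⟨k, hk⟩ : ∃ k, k = c * psi r / T := ⟨_, rfl⟩
  have hk0 : 0 ≤ k := by rw [hk]; positivity
  have hkT : T * k = c * psi r := by rw [hk]; field_simp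
  have hk1 : k ≤ 1 / 2 := by
    rw [hk, div_le_iff₀ hT]; linarith
  have hk2 : k < ε := by
    rw [hk, div_lt_iff₀ hT]; linarith
  have hsub : {u : unitInterval | |(u : ℝ) - t| ≤ k} ⊆ {u : unitInterval | dist (f u) (f t) ≤ r} := by
    intro u hu
    have hu' : |(u : ℝ) - t| ≤ k := hu
    have hd : dist u t < ε := by
      have : dist u t = |(u : ℝ) - t| := by rw [Subtype.dist_eq, Real.dist_eq]
      rw [this]; exact hu'.trans_lt hk2
    have h6 := hball hd
    show dist (f u) (f t) ≤ r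
    refine h6.trans ?_
    have h7 : T * |(u : ℝ) - t| ≤ c * psi r := by
      rw [← hkT]; exact mul_le_mul_of_nonneg_left hu' hT.le
    have h8 : phi (T * |(u : ℝ) - t|) ≤ phi (c * psi r) :=
      phi_mono (by positivity) h7 (hy.trans hr1)
    have h9 := phi_psi hc0 hc1 hr0 hr1 hr2
    rw [hc47] at h9
    calc C * phi (T * |(u : ℝ) - t|) ≤ C * (3 * (1 / (3 * C + 1)) * r) :=
          mul_le_mul_of_nonneg_left (h8.trans h9) hC.le
      _ = (3 * C) / (3 * C + 1) * r := by ring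
      _ ≤ 1 * r := by
          refine mul_le_mul_of_nonneg_right ?_ hr0.le
          rw [div_le_one (by positivity)]; linarith
      _ = r := one_mul r
  have h10 := vol_side t hk0 hk1
  have h11 := ENNReal.toReal_mono (measure_ne_top volume
    {u : unitInterval | dist (f u) (f t) ≤ r}) (measure_mono hsub)
  rw [← hkT]
  exact mul_le_mul_of_nonneg_left (h10.trans h11) hT.le

end Pool.Agent.J4H74.PK
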